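import Pool.Agent.VB.B
import Pool.Agent.Helper6.VC.Glue

/-!
# The components over a finite set in the large model
-/

set_option autoImplicit false
set_option linter.unusedSectionVars false
set_option linter.unusedVariables false

namespace Pool.Agent.Helper79.VC

open Set Pool.Agent.Helper5.DU Pool.Agent.Helper6.Str

variable {L : FirstOrder.Language.{0, 0}} {M : Type}

/-- one element works for all countable levels -/
theorem exists_uniform {P : ℕ → Ordinal.{0} → Prop}
    (hmono : ∀ y β γ, β ≤ γ → P y γ → P y β) (h : ∀ γ < om1, ∃ y, P y γ) :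
    ∃ y, ∀ γ < om1, P y γ := by
  by_contra hcon
  push Not at hcon
  choose g hg hg' using hcon
  obtain ⟨γ, hγ, hle⟩ := exists_bound hg
  obtain ⟨y, hy⟩ := h γ hγ
  exact hg' y (hmono y _ _ (hle y) hy)

/-- A piece equivalent to a piece on the natural numbers at all countable levels is tame. -/
theorem tame_of_piece {S : L.Structure M} {n : ℕ} {s : Fin n → M} {C : Set M}
    {A : L.Structure ℕ} {a : Fin n → ℕ} {C' : Set ℕ} (h : ∀ g < om1, PE S s C A a C' g) :
    Tame S (range s) C := by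
  classical
  have key : ∀ c ∈ C ∪ range s, ∃ y : ℕ, ∀ g < om1, y ∈ C' ∪ range a ∧
      BFR S A (C ∪ range s) (C' ∪ range a) g (insert (c, y) (range fun i => (s i, a i))) := by
    intro c hc
    refine exists_uniform (P := fun y g => y ∈ C' ∪ range a ∧
      BFR S A (C ∪ range s) (C' ∪ range a) g (insert (c, y) (range fun i => (s i, a i))))
      (fun y β γ hβ h => ⟨h.1, h.2.mono hβ⟩) (fun g hg => ?_)
    obtain ⟨y, hy, hy'⟩ := BFR.forth (h _ (add_one_lt_om1 hg)) (Order.lt_add_one_iff.mpr le_rfl)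
      hc
    exact ⟨y, hy, hy'⟩
  let W : ℕ → M → Prop := fun y c => c ∈ C ∪ range s ∧ ∀ g < om1,
      BFR S A (C ∪ range s) (C' ∪ range a) g (insert (c, y) (range fun i => (s i, a i)))
  refine ⟨{c | ∃ y, ∃ h : ∃ c, W y c, c = h.choose}, ?_, ?_, ?_⟩
  · rintro c ⟨y, h1, rfl⟩
    exact h1.choose_spec.1
  · have : {c | ∃ y, ∃ h : ∃ c, W y c, c = h.choose} ⊆
        range (fun y : {y : ℕ // ∃ c, W y c} => y.2.choose) := by
      rintro c ⟨y, h1, rfl⟩
      exact ⟨⟨y, h1⟩, rfl⟩
    exact (countable_range _).mono this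
  · intro c hc
    obtain ⟨y, hy⟩ := key c hc
    have hW : ∃ c, W y c := ⟨c, hc, fun g hg => (hy g hg).2⟩
    refine ⟨hW.choose, ⟨y, hW, rfl⟩, fun g hg => ?_⟩
    have h1 := (hy g hg).2
    have h2 := hW.choose_spec.2 g hg
    have h3 : BFR A S (C' ∪ range a) (C ∪ range s) g
        (insert (y, hW.choose) (range fun i => (a i, s i))) := by
      refine h2.symm ?_
      rintro _ (rfl | ⟨i, rfl⟩)
      · exact mem_insert _ _
      · exact mem_insert_of_mem _ ⟨i, rfl⟩
    refine h1.trans h3 ?_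
    rintro _ (rfl | ⟨_, ⟨i, rfl⟩, rfl⟩)
    · exact ⟨y, mem_insert _ _, mem_insert _ _⟩
    · exact ⟨a i, mem_insert_of_mem _ ⟨i, rfl⟩, mem_insert_of_mem _ ⟨i, rfl⟩⟩

section

variable {K : Set (L.Structure ℕ)} {S : L.Structure M}

/-- a piece of the large model is approximated by pieces of members of `K` -/
theorem approx (hlev : Lev K S) {n : ℕ} (s : Fin n → M) {x : M} (hx : x ∉ range s)
    {g : Ordinal.{0}} (hg : g < om1) :
    ∃ (S' : L.Structure ℕ) (s' : Fin n → ℕ) (C : Set ℕ), S' ∈ K ∧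
      IsCpt (gaif S') (range s') C ∧ PE S s (cpt (gaif S) (range s) x) S' s' C g := by
  have hlt : Ordinal.omega0 + Ordinal.omega0 + g + ((n + 1 : ℕ) : Ordinal.{0}) < om1 :=
    add_lt_om1 (add_lt_om1 (add_lt_om1 omega_lt_om1 omega_lt_om1) hg) (natCast_lt_om1 _)
  obtain ⟨S', hS'K, hS'⟩ := hlev _ hlt
  obtain ⟨y, -, hy⟩ := BFR.forth_many (n + 1) hS' (Fin.snoc s x : Fin (n + 1) → M)
    fun _ => mem_univ _
  have hs : ∀ i : Fin n, (s i, y i.castSucc) ∈
      (∅ ∪ range fun i => ((Fin.snoc s x : Fin (n + 1) → M) i, y i)) := by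
    intro i
    refine Or.inr ⟨i.castSucc, ?_⟩
    simp
  have hxx : (x, y (Fin.last n)) ∈
      (∅ ∪ range fun i => ((Fin.snoc s x : Fin (n + 1) → M) i, y i)) := by
    refine Or.inr ⟨Fin.last n, ?_⟩
    simp
  refine ⟨S', fun i => y i.castSucc, cpt (gaif S') (range fun i : Fin n => y i.castSucc)
    (y (Fin.last n)), hS'K, isCpt_cpt ?_, ?_⟩
  · rintro ⟨i, hi⟩
    have : s i = x := (hy.atEq.1 _ (hs i) _ hxx).mpr hi
    exact hx ⟨i, this⟩
  · refine BFR.anti ?_ (BFR.restrict hy hs hxx)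
    rintro _ ⟨i, rfl⟩
    exact hs i

/-- elements of the large model are classified by natural numbers at every countable level -/
theorem lev_code (hS : Scat K) (hlev : Lev K S) {n : ℕ} (s : Fin n → M)
    {g : Ordinal.{0}} (hg : g < om1) :
    ∃ f : M → ℕ, ∀ x y, f x = f y →
      BFR S S univ univ g (insert (x, y) (range fun i => (s i, s i))) := by
  obtain ⟨ρ, hρ⟩ := hS g hg (n + 1)
  have hlt : g + ((n + 1 : ℕ) : Ordinal.{0}) < om1 := add_lt_om1 hg (natCast_lt_om1 _)
  obtain ⟨S', hS'K, hS'⟩ := hlev _ hlt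
  have hch : ∀ x : M, ∃ m : ℕ, BFR S (ρ m).1 univ univ g
      (range fun i => ((Fin.snoc s x : Fin (n + 1) → M) i, (ρ m).2 i)) := by
    intro x
    obtain ⟨y, -, hy⟩ := BFR.forth_many (n + 1) hS' (Fin.snoc s x : Fin (n + 1) → M)
      fun _ => mem_univ _
    obtain ⟨m, -, hm⟩ := hρ S' hS'K y
    refine ⟨m, hy.trans hm ?_⟩
    rintro _ ⟨i, rfl⟩
    exact ⟨y i, Or.inr ⟨i, rfl⟩, ⟨i, rfl⟩⟩
  choose f hf using hch
  refine ⟨f, fun x y hxy => ?_⟩
  have h1 := hf x
  have h2 := hf y
  rw [← hxy] at h2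
  have h3 : BFR (ρ (f x)).1 S univ univ g
      (range fun i => ((ρ (f x)).2 i, (Fin.snoc s y : Fin (n + 1) → M) i)) := by
    refine h2.symm ?_
    rintro _ ⟨i, rfl⟩
    exact ⟨i, rfl⟩
  refine h1.trans h3 ?_
  rintro _ (rfl | ⟨i, rfl⟩)
  · exact ⟨(ρ (f x)).2 (Fin.last n), ⟨Fin.last n, by simp⟩, ⟨Fin.last n, by simp⟩⟩
  · exact ⟨(ρ (f x)).2 i.castSucc, ⟨i.castSucc, by simp⟩, ⟨i.castSucc, by simp⟩⟩

variable [∀ n, IsEmpty (L.Functions n)]

theorem star_large (hS : Scat K) {d : Ordinal.{0}} (hd : d < om1) (hcl : ClosedLev K d)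
    (hlev : Lev K S) {n : ℕ} {s : Fin n → M} (hs : Function.Injective s) (X : ℕ → M)
    (hX : ∀ k, X k ∉ range s) (hXc : ∀ k l, k ≠ l → ¬ Conn (gaif S) (range s) (X k) (X l))
    (A : ℕ → L.Structure ℕ) (a : ℕ → Fin n → ℕ) (C : ℕ → Set ℕ)
    (hC : ∀ m, IsCpt (gaif (A m)) (range (a m)) (C m))
    (h1 : ∀ k m, PE S s (cpt (gaif S) (range s) (X k)) (A m) (a m) (C m) d)
    {g : Ordinal.{0}} (hg : g < om1)
    (h2 : ∀ m m', m ≠ m' → ¬ PE (A m) (a m) (C m) (A m') (a m') (C m') g) : False := by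
  have hlt : Ordinal.omega0 + Ordinal.omega0 + d + Ordinal.omega0 + (n : Ordinal.{0}) < om1 :=
    add_lt_om1 (add_lt_om1 (add_lt_om1 (add_lt_om1 omega_lt_om1 omega_lt_om1) hd) omega_lt_om1)
      (natCast_lt_om1 _)
  obtain ⟨S', hS'K, hS'⟩ := hlev _ hlt
  obtain ⟨s', -, hs'⟩ := BFR.forth_many n hS' s fun _ => mem_univ _
  have hs'inj : Function.Injective s' := by
    intro i j hij
    exact hs ((hs'.atEq.1 (s i, s' i) (Or.inr ⟨i, rfl⟩) (s j, s' j) (Or.inr ⟨j, rfl⟩)).mpr hij)
  let T : Set (Set ℕ) := {D | IsCpt (gaif S') (range s') D ∧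
    ∀ m, PE S' s' D (A m) (a m) (C m) d}
  refine star hS hd hcl hS'K hs'inj T ?_ (fun D hD => hD.1) A a C hC (fun D hD => hD.2) hg h2
  intro hfin
  let N := hfin.toFinset.card + 1
  have hle : Ordinal.omega0 + Ordinal.omega0 + d + (N : Ordinal.{0}) ≤
      Ordinal.omega0 + Ordinal.omega0 + d + Ordinal.omega0 := by
    gcongr
    exact (Ordinal.natCast_lt_omega0 N).le
  obtain ⟨y, -, hy⟩ := BFR.forth_many N (hs'.mono hle) (fun k : Fin N => X k) fun _ => mem_univ _
  have hmem : ∀ i, (s i, s' i) ∈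
      (∅ ∪ range fun i => (s i, s' i)) ∪ range fun k : Fin N => (X k, y k) :=
    fun i => Or.inl (Or.inr ⟨i, rfl⟩)
  have hXy : ∀ k : Fin N, (X k, y k) ∈
      (∅ ∪ range fun i => (s i, s' i)) ∪ range fun k : Fin N => (X k, y k) :=
    fun k => Or.inr ⟨k, rfl⟩
  have hPQ : Pairs (range s) (range s')
      ((∅ ∪ range fun i => (s i, s' i)) ∪ range fun k : Fin N => (X k, y k)) := by
    constructor
    · rintro _ ⟨i, rfl⟩
      exact ⟨s' i, mem_range_self i, hmem i⟩
    · rintro _ ⟨i, rfl⟩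
      exact ⟨s i, mem_range_self i, hmem i⟩
  have hyQ : ∀ k : Fin N, y k ∉ range s' := fun k hk =>
    hX k ((hPQ.mem_iff hy.atEq (hXy k)).mpr hk)
  have hT : ∀ k : Fin N, cpt (gaif S') (range s') (y k) ∈ T := by
    intro k
    refine ⟨isCpt_cpt (hyQ k), fun m => ?_⟩
    have h3 : PE S s (cpt (gaif S) (range s) (X k)) S' s' (cpt (gaif S') (range s') (y k)) d := by
      refine BFR.anti ?_ (BFR.restrict hy hmem (hXy k))
      rintro _ ⟨i, rfl⟩
      exact hmem i
    exact h3.symm.trans (h1 k m)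
  have hinj : Function.Injective fun k : Fin N =>
      (⟨cpt (gaif S') (range s') (y k), hfin.mem_toFinset.mpr (hT k)⟩ : hfin.toFinset) := by
    intro k l hkl
    by_contra hne
    have h3 : cpt (gaif S') (range s') (y k) = cpt (gaif S') (range s') (y l) :=
      congrArg Subtype.val hkl
    have h4 : Conn (gaif S') (range s') (y k) (y l) := by
      have : y l ∈ cpt (gaif S') (range s') (y k) := h3 ▸ mem_cpt_self _
      exact this
    have h5 := (conn_of_BFR (hy.mono le_self_add) hPQ (hXy k) (hXy l)).mpr h4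
    exact hXc k l (fun h => hne (Fin.ext h)) h5
  have hcard := Fintype.card_le_of_injective _ hinj
  simp [N] at hcard

/-- components equivalent at all countable levels -/
def CEquiv (S : L.Structure M) {n : ℕ} (s : Fin n → M) (x y : M) : Prop :=
  ∀ g < om1, PE S s (cpt (gaif S) (range s) x) S s (cpt (gaif S) (range s) y) g

/-- the classes of points outside `s` -/
def ceSetoid (S : L.Structure M) {n : ℕ} (s : Fin n → M) : Setoid {x : M // x ∉ range s} where
  r x y := CEquiv S s x.1 y.1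
  iseqv := ⟨fun _ _ _ => PE.refl _ _ _ _, fun h g hg => (h g hg).symm,
    fun h h' g hg => (h g hg).trans (h' g hg)⟩

theorem countable_ce (hS : Scat K) {d : Ordinal.{0}} (hd : d < om1) (hcl : ClosedLev K d)
    (hlev : Lev K S) {n : ℕ} {s : Fin n → M} (hs : Function.Injective s) :
    Countable (Quotient (ceSetoid S s)) := by
  rw [← countable_univ_iff]
  by_contra hcon
  have hlt : Ordinal.omega0 + Ordinal.omega0 + d < om1 :=
    add_lt_om1 (add_lt_om1 omega_lt_om1 omega_lt_om1) hd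
  obtain ⟨f, hf⟩ := lev_code hS hlev s hlt
  obtain ⟨m, hm⟩ := exists_large_fiber hcon (fun q : Quotient (ceSetoid S s) => f q.out.1)
  have hinf : {q ∈ (univ : Set (Quotient (ceSetoid S s))) | f q.out.1 = m}.Infinite :=
    fun hfin => hm hfin.countable
  let z := hinf.natEmbedding
  let x : ℕ → M := fun k => (z k).1.out.1
  have hx : ∀ k, x k ∉ range s := fun k => (z k).1.out.2
  have hxd : ∀ k l, PE S s (cpt (gaif S) (range s) (x k)) S s (cpt (gaif S) (range s) (x l)) d := by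
    intro k l
    have h1 := hf (x k) (x l) ((z k).2.2.trans (z l).2.2.symm)
    refine BFR.anti ?_ (BFR.restrict (s := s) (s' := s) h1
      (fun i => mem_insert_of_mem _ ⟨i, rfl⟩) (mem_insert _ _))
    exact subset_insert _ _
  have hne : ∀ k l, k ≠ l → ¬ CEquiv S s (x k) (x l) := by
    intro k l hkl h
    apply hkl
    apply z.injective
    apply Subtype.ext
    have h1 : Quotient.mk (ceSetoid S s) (z k).1.out = Quotient.mk (ceSetoid S s) (z l).1.out :=
      Quotient.sound h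
    rwa [Quotient.out_eq, Quotient.out_eq] at h1
  have hch : ∀ p : ℕ × ℕ, ∃ g < om1, p.1 ≠ p.2 →
      ¬ PE S s (cpt (gaif S) (range s) (x p.1)) S s (cpt (gaif S) (range s) (x p.2)) g := by
    intro p
    by_cases hp : p.1 = p.2
    · exact ⟨0, zero_lt_om1, fun h => absurd hp h⟩
    · have := hne _ _ hp
      unfold CEquiv at this
      push Not at this
      obtain ⟨g, hg, hg'⟩ := this
      exact ⟨g, hg, fun _ => hg'⟩
  choose G hG hG' using hch
  obtain ⟨g₁, hg₁, hle⟩ := exists_bound hG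
  let g := max g₁ d
  have hg : g < om1 := max_lt hg₁ hd
  have hap := fun k => approx hlev s (hx k) hg
  choose A a C hAK hC hPE using hap
  refine star_large hS hd hcl hlev hs x hx (fun k l hkl hcon => hne k l hkl ?_) A a C hC
    (fun k m => (hxd k m).trans ((hPE m).mono (le_max_right _ _))) hg (fun m m' hmm h => ?_)
  · intro g' _
    rw [cpt_eq hcon]
    exact PE.refl _ _ _ _
  · have h1 := ((hPE m).trans h).trans (hPE m').symm
    exact hG' (m, m') hmm (h1.mono ((hle (m, m')).trans (le_max_left _ _)))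

/-- Infinitely many components in one class: the class is tame. -/
theorem tame_of_infinite (hS : Scat K) {d : Ordinal.{0}} (hd : d < om1) (hcl : ClosedLev K d)
    (hlev : Lev K S) {n : ℕ} {s : Fin n → M} (hs : Function.Injective s) {x : M}
    (hx : x ∉ range s)
    (hinf : {D | IsCpt (gaif S) (range s) D ∧
      ∀ g < om1, PE S s (cpt (gaif S) (range s) x) S s D g}.Infinite) :
    Tame S (range s) (cpt (gaif S) (range s) x) := by
  by_contra hcon
  -- every piece on the natural numbers differs from this one at some countable level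
  have hno : ∀ (A : L.Structure ℕ) (a : Fin n → ℕ) (C : Set ℕ), ∃ g < om1,
      ¬ PE S s (cpt (gaif S) (range s) x) A a C g := by
    intro A a C
    by_contra h
    push Not at h
    exact hcon (tame_of_piece h)
  let St := {q : (L.Structure ℕ × (Fin n → ℕ) × Set ℕ) × Ordinal.{0} //
    q.2 < om1 ∧ d ≤ q.2 ∧ IsCpt (gaif q.1.1) (range q.1.2.1) q.1.2.2 ∧
      PE S s (cpt (gaif S) (range s) x) q.1.1 q.1.2.1 q.1.2.2 q.2}
  have hstep : ∀ q : St, ∃ q' : St, q.1.2 ≤ q'.1.2 ∧
      ¬ PE S s (cpt (gaif S) (range s) x) q.1.1.1 q.1.1.2.1 q.1.1.2.2 q'.1.2 := by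
    rintro ⟨⟨⟨A, a, C⟩, g⟩, hg, hdg, hC, hPE⟩
    obtain ⟨g', hg', hnot⟩ := hno A a C
    have hmax : max g g' < om1 := max_lt hg hg'
    obtain ⟨A', a', C', -, hC', hPE'⟩ := approx hlev s hx hmax
    exact ⟨⟨⟨⟨A', a', C'⟩, max g g'⟩, hmax, hdg.trans (le_max_left _ _), hC', hPE'⟩,
      le_max_left _ _, fun h => hnot (h.mono (le_max_right _ _))⟩
  have hinit : ∃ q : St, True := by
    obtain ⟨A', a', C', -, hC', hPE'⟩ := approx hlev s hx hd
    exact ⟨⟨⟨⟨A', a', C'⟩, d⟩, hd, le_rfl, hC', hPE'⟩, trivial⟩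
  obtain ⟨q₀, -⟩ := hinit
  choose nx hnx1 hnx2 using hstep
  let t : ℕ → St := fun k => k.rec q₀ (fun _ q => nx q)
  have ht : ∀ k, t (k + 1) = nx (t k) := fun k => rfl
  have hmono : ∀ k l, k ≤ l → (t k).1.2 ≤ (t l).1.2 := by
    intro k l hkl
    induction l, hkl using Nat.le_induction with
    | base => exact le_rfl
    | succ l _ ih =>
      rw [ht]
      exact ih.trans (hnx1 _)
  obtain ⟨g, hg, hle⟩ := exists_bound fun k => (t k).2.1
  -- distinct components equivalent to the given one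
  let z := hinf.natEmbedding
  have hz : ∀ k, ∃ y, y ∉ range s ∧ (z k).1 = cpt (gaif S) (range s) y := fun k => (z k).2.1
  choose y hy hy' using hz
  have hlt' : ∀ m m', m < m' → ¬ PE (t m).1.1.1 (t m).1.1.2.1 (t m).1.1.2.2 (t m').1.1.1
      (t m').1.1.2.1 (t m').1.1.2.2 g := by
    intro m m' hmm h
    have h1 : PE S s (cpt (gaif S) (range s) x) (t m').1.1.1 (t m').1.1.2.1 (t m').1.1.2.2
        (t (m + 1)).1.2 := (t m').2.2.2.2.mono (hmono _ _ hmm)
    have h2 := h1.trans (h.mono (hle (m + 1))).symm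
    exact hnx2 (t m) h2
  refine star_large hS hd hcl hlev hs y hy (fun k l hkl hcon => hkl (z.injective ?_))
    (fun m => (t m).1.1.1) (fun m => (t m).1.1.2.1) (fun m => (t m).1.1.2.2)
    (fun m => (t m).2.2.2.1) (fun k m => ?_) hg (fun m m' hmm h => ?_)
  · apply Subtype.ext
    rw [hy' k, hy' l, cpt_eq hcon]
  · rw [← hy' k]
    exact ((z k).2.2 d hd).symm.trans ((t m).2.2.2.2.mono (t m).2.2.1)
  · rcases lt_or_gt_of_ne hmm with h1 | h1
    · exact hlt' m m' h1 h
    · exact hlt' m' m h1 h.symm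

/-- The components over a finite set. -/
theorem dich (hS : Scat K) {d : Ordinal.{0}} (hd : d < om1) (hcl : ClosedLev K d)
    (hlev : Lev K S) (Q : Finset M) :
    ∃ DD : Set (Set M), DD.Countable ∧ (∀ D ∈ DD, IsCpt (gaif S) Q D) ∧
      ∀ C, IsCpt (gaif S) Q C → C ∉ DD →
        {D ∈ DD | Tame S Q D ∧ ∀ g < om1,
          BFR S S (C ∪ Q) (D ∪ Q) g ((fun a => (a, a)) '' (Q : Set M))}.Infinite := by
  classical
  let s : Fin Q.card → M := fun i => (Q.equivFin.symm i).1
  have hs : Function.Injective s := fun i j hij => Q.equivFin.symm.injective (Subtype.ext hij)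
  have hsQ : range s = (Q : Set M) := by
    ext c
    constructor
    · rintro ⟨i, rfl⟩
      exact (Q.equivFin.symm i).2
    · intro hc
      exact ⟨Q.equivFin ⟨c, hc⟩, by simp [s]⟩
  have hdiag : (range fun i => (s i, s i)) = (fun a => (a, a)) '' (Q : Set M) := by
    rw [← hsQ]
    ext p
    constructor
    · rintro ⟨i, rfl⟩
      exact ⟨s i, mem_range_self i, rfl⟩
    · rintro ⟨_, ⟨i, rfl⟩, rfl⟩
      exact ⟨i, rfl⟩
  have hct := countable_ce hS hd hcl hlev hs
  let E : Quotient (ceSetoid S s) → Set (Set M) := fun q =>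
    {D | IsCpt (gaif S) (range s) D ∧ ∀ g < om1,
      PE S s (cpt (gaif S) (range s) q.out.1) S s D g}
  have hsub : ∀ q, ∃ D : Set (Set M), D ⊆ E q ∧ D.Countable ∧ ((E q).Finite → D = E q) ∧
      ((E q).Infinite → D.Infinite) := by
    intro q
    by_cases hq : (E q).Finite
    · exact ⟨E q, Subset.rfl, hq.countable, fun _ => rfl, fun h => absurd hq h⟩
    · have hq' : (E q).Infinite := hq
      let z : ℕ ↪ E q := Set.Infinite.natEmbedding _ hq'
      refine ⟨range fun k => ((z k : E q) : Set M), ?_, countable_range _,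
        fun h => absurd h hq, fun _ => ?_⟩
      · rintro _ ⟨k, rfl⟩
        exact (z k).2
      · exact infinite_range_of_injective fun i j hij => z.injective (Subtype.ext hij)
  choose D hDE hDc hDfin hDinf using hsub
  refine ⟨⋃ q, D q, countable_iUnion hDc, fun C hC => ?_, fun C hC hCD => ?_⟩
  · obtain ⟨q, hq⟩ := mem_iUnion.mp hC
    rw [← hsQ]
    exact (hDE q hq).1
  · rw [← hsQ] at hC
    obtain ⟨x, hx, rfl⟩ := hC
    let q : Quotient (ceSetoid S s) := Quotient.mk _ ⟨x, hx⟩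
    have hqx : CEquiv S s q.out.1 x := by
      have h1 : Quotient.mk (ceSetoid S s) q.out = Quotient.mk (ceSetoid S s) ⟨x, hx⟩ :=
        Quotient.out_eq q
      exact Quotient.exact h1
    have hmem : cpt (gaif S) (range s) x ∈ E q := ⟨isCpt_cpt hx, hqx⟩
    have hinf : (E q).Infinite := by
      intro hfin
      exact hCD (mem_iUnion.mpr ⟨q, by rw [hDfin q hfin]; exact hmem⟩)
    refine (hDinf q hinf).mono fun C' hC' => ⟨mem_iUnion.mpr ⟨q, hC'⟩, ?_, fun g hg => ?_⟩
    · obtain ⟨⟨y, hy, rfl⟩, hPE⟩ := hDE q hC'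
      rw [← hsQ]
      refine tame_of_infinite hS hd hcl hlev hs hy (hinf.mono fun D' hD' => ⟨hD'.1, fun g hg => ?_⟩)
      exact (hPE g hg).symm.trans (hD'.2 g hg)
    · have h1 : PE S s (cpt (gaif S) (range s) x) S s C' g :=
        (hqx g hg).symm.trans ((hDE q hC').2 g hg)
      unfold PE at h1
      rw [hdiag, hsQ] at h1
      rw [hsQ]
      exact h1

end

end Pool.Agent.Helper79.VC
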