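import Pool.Agent.Helper79.VC.Dich
import Pool.Agent.VB.C

/-!
# The dichotomy for classes without subdivided infinite complete graphs
-/

set_option autoImplicit false

namespace Pool.Agent.Helper79.VC

open Set Pool.Agent.Helper5.DU Pool.Agent.Helper6.Str

variable {L : FirstOrder.Language.{0, 0}}

theorem main_noTK [∀ n, IsEmpty (L.Functions n)] [∀ n, Countable (L.Relations n)]
    (K : Set (L.Structure ℕ)) (hK : MeasurableSet {c : Code L | toStr c ∈ K}) (d : Ordinal.{0})
    (hd : d < om1) (hcl : ClosedLev K d) (hTK : ∀ S ∈ K, ¬ HasTK (gaif S)) (hP : ¬ PerfK K) :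
    CtblK K := by
  by_contra hC
  have hS := scat_of_not_perf hK hP
  obtain ⟨M, S, hlev, hNT⟩ := exists_model hK hS hd hcl hC
  have hTKM : HasTK (gaif S) := Pool.Agent.Helper97.VC.close_of_swap
    (fun Q C D F c d g h1 h2 h3 h4 h5 h6 h7 => swap_cpt h1 h2 h3 h4 h5 h6 F h7) hNT
    (dich hS hd hcl hlev)
  obtain ⟨S', hS', h⟩ := Pool.Agent.Helper97.VC.hasTK_reflect hS hd hcl hlev hTKM
  exact hTK S' hS' h

end Pool.Agent.Helper79.VC
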